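import Pool.Agent.Lib.GPF.Lower

/-!
The supremum `beta` of the asymptotic densities of sets of positive integers without
three-term geometric progressions with integer ratio is strictly larger than the supremum
`alpha` of the asymptotic densities of sets of positive integers without three-term
geometric progressions with rational ratio.
-/

namespace Pool.Agent.Results.MP_0c1da6_nt.BetaGtAlpha

open Pool.Agent.GPF

theorem result : alpha < beta := alpha_lt_beta

end Pool.Agent.Results.MP_0c1da6_nt.BetaGtAlpha
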